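import Pool.Agent.Y262.EL.Stm

/-!
# Project EL: from local to global regularity
-/

set_option autoImplicit false

open Set Filter Topology MeasureTheory
open scoped ContDiff ComplexConjugate Real

noncomputable section

namespace Pool.Agent.Y65.EL

open Pool.Agent.Y262.EG Pool.Agent.Y262.EX Pool.Agent.Y262.EL

lemma px_congr {f g : ℂ → ℝ} {z : ℂ} (h : f =ᶠ[𝓝 z] g) : px f =ᶠ[𝓝 z] px g := by
  filter_upwards [h.fderiv (𝕜 := ℝ)] with w hw
  unfold px
  rw [hw]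

lemma py_congr {f g : ℂ → ℝ} {z : ℂ} (h : f =ᶠ[𝓝 z] g) : py f =ᶠ[𝓝 z] py g := by
  filter_upwards [h.fderiv (𝕜 := ℝ)] with w hw
  unfold py
  rw [hw]

lemma lap_congr {f g : ℂ → ℝ} {z : ℂ} (h : f =ᶠ[𝓝 z] g) : lap f z = lap g z := by
  unfold lap
  rw [(px_congr (px_congr h)).eq_of_nhds, (py_congr (py_congr h)).eq_of_nhds]

theorem glo (hcvm : StCVM) : StGlo := by
  intro M P _ _ _ _ _ _ Ω φ pr q μ hUT hAr lam u H
  choose! r V hr hball _hinj hsm hae heq using H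
  have hsur : ∀ x : M, ∃ z ∈ Ω, pr z = x := by
    intro x
    have hx : x ∈ pr '' Ω := by rw [hUT.surjp]; exact mem_univ x
    exact hx
  choose s hs hs' using hsur
  have hnull : ∀ z0 ∈ Ω, volume {z | ¬ (z ∈ Metric.ball z0 (r z0) → u (pr z) = V z0 z)} = 0 := by
    intro z0 hz0
    have h1 := hae z0 hz0
    rw [ae_restrict_iff' measurableSet_ball, ae_iff] at h1
    exact h1
  -- two local functions agree at points over the same point of the surface
  have key : ∀ z0 ∈ Ω, ∀ z1 ∈ Ω, ∀ z ∈ Metric.ball z0 (r z0), ∀ w ∈ Metric.ball z1 (r z1),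
      pr z = pr w → V z0 z = V z1 w := by
    intro z0 hz0 z1 hz1 z hz w hw hzw
    have hzΩ : z ∈ Ω := hball z0 hz0 hz
    have hwΩ : w ∈ Ω := hball z1 hz1 hw
    obtain ⟨θ1, hG1⟩ := hUT.deck z hzΩ w hwΩ hzw 0
    obtain ⟨θ2, hG2⟩ := hUT.deck w hwΩ z hzΩ hzw.symm 0
    obtain ⟨ρ1, γ, hρ1, hb1, hd1, hγz, hγ, -⟩ := hG1
    obtain ⟨ρ2, δ, hρ2, hb2, hd2, hδw, hδ, -⟩ := hG2
    simp only at hρ1 hb1 hd1 hγz hγ hρ2 hb2 hd2 hδw hδ
    obtain ⟨ρ3, hρ3, hb3, hinj3⟩ := hUT.injp z hzΩ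
    by_contra hne
    have hcγ : ContinuousAt γ z :=
      (hd1.differentiableAt (Metric.ball_mem_nhds z hρ1)).continuousAt
    have hcδ : ContinuousAt δ w :=
      (hd2.differentiableAt (Metric.ball_mem_nhds w hρ2)).continuousAt
    have hcδ' : ContinuousAt (fun ζ => δ (γ ζ)) z := by
      apply ContinuousAt.comp (g := δ)
      · rw [hγz]; exact hcδ
      · exact hcγ
    have hV0 : ContinuousAt (V z0) z :=
      ((hsm z0 hz0).contDiffAt (Metric.isOpen_ball.mem_nhds hz)).continuousAt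
    have hV1 : ContinuousAt (V z1) w :=
      ((hsm z1 hz1).contDiffAt (Metric.isOpen_ball.mem_nhds hw)).continuousAt
    have hV1' : ContinuousAt (fun ζ => V z1 (γ ζ)) z := by
      apply ContinuousAt.comp (g := V z1)
      · rw [hγz]; exact hV1
      · exact hcγ
    have e1 : ∀ᶠ ζ in 𝓝 z, ζ ∈ Metric.ball z0 (r z0) := Metric.isOpen_ball.mem_nhds hz
    have e2 : ∀ᶠ ζ in 𝓝 z, ζ ∈ Metric.ball z ρ1 := Metric.ball_mem_nhds z hρ1
    have e3 : ∀ᶠ ζ in 𝓝 z, ζ ∈ Metric.ball z ρ3 := Metric.ball_mem_nhds z hρ3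
    have e4 : ∀ᶠ ζ in 𝓝 z, γ ζ ∈ Metric.ball z1 (r z1) := by
      apply hcγ
      rw [hγz]
      exact Metric.isOpen_ball.mem_nhds hw
    have e5 : ∀ᶠ ζ in 𝓝 z, γ ζ ∈ Metric.ball w ρ2 := by
      apply hcγ
      rw [hγz]
      exact Metric.ball_mem_nhds w hρ2
    have e6 : ∀ᶠ ζ in 𝓝 z, δ (γ ζ) ∈ Metric.ball z ρ3 := by
      apply hcδ'
      simp only
      rw [hγz, hδw]
      exact Metric.ball_mem_nhds z hρ3
    have e7 : ∀ᶠ ζ in 𝓝 z, V z0 ζ ≠ V z1 (γ ζ) := by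
      have h3 : ContinuousAt (fun ζ => V z0 ζ - V z1 (γ ζ)) z := hV0.sub hV1'
      have h4 : V z0 z - V z1 (γ z) ≠ 0 := by
        rw [hγz]
        exact sub_ne_zero.2 hne
      have h5 := h3.eventually_ne h4
      filter_upwards [h5] with ζ hζ
      exact sub_ne_zero.1 hζ
    have hall := e1.and (e2.and (e3.and (e4.and (e5.and (e6.and e7)))))
    have hpos := MeasureTheory.Measure.measure_pos_of_mem_nhds (volume : Measure ℂ) hall
    have himg : volume (δ '' ({z | ¬ (z ∈ Metric.ball z1 (r z1) → u (pr z) = V z1 z)} ∩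
        Metric.ball w ρ2)) = 0 := by
      apply addHaar_image_eq_zero_of_differentiableOn_of_addHaar_eq_zero (volume : Measure ℂ)
      · exact (hd2.restrictScalars ℝ).mono inter_subset_right
      · exact measure_mono_null inter_subset_left (hnull z1 hz1)
    have hsub : {ζ | ζ ∈ Metric.ball z0 (r z0) ∧ ζ ∈ Metric.ball z ρ1 ∧ ζ ∈ Metric.ball z ρ3 ∧
        γ ζ ∈ Metric.ball z1 (r z1) ∧ γ ζ ∈ Metric.ball w ρ2 ∧ δ (γ ζ) ∈ Metric.ball z ρ3 ∧
        V z0 ζ ≠ V z1 (γ ζ)} ⊆ {z | ¬ (z ∈ Metric.ball z0 (r z0) → u (pr z) = V z0 z)} ∪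
        (δ '' ({z | ¬ (z ∈ Metric.ball z1 (r z1) → u (pr z) = V z1 z)} ∩
        Metric.ball w ρ2)) := by
      rintro ζ ⟨g1, g2, g3, g4, g5, g6, g7⟩
      have hpr : pr (γ ζ) = pr ζ := (hγ ζ g2).2.1
      by_cases hc : u (pr ζ) = V z0 ζ
      · right
        refine ⟨γ ζ, ⟨?_, g5⟩, ?_⟩
        · intro h6
          have h7 := h6 g4
          rw [hpr, hc] at h7
          exact g7 h7
        · apply hinj3 g6 g3
          rw [(hδ (γ ζ) g5).2.1, hpr]
      · left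
        intro h6
        exact hc (h6 g1)
    have hzero := measure_mono_null hsub (measure_union_null (hnull z0 hz0) himg)
    exact hpos.ne' hzero
  obtain ⟨v, hv⟩ : ∃ v : M → ℝ, v = fun x => V (s x) (s x) := ⟨_, rfl⟩
  have hvV : ∀ z0 ∈ Ω, ∀ z ∈ Metric.ball z0 (r z0), v (pr z) = V z0 z := by
    intro z0 hz0 z hz
    rw [hv]
    exact (key z0 hz0 (s (pr z)) (hs _) z hz (s (pr z)) (Metric.mem_ball_self (hr _ (hs _)))
      (hs' _).symm).symm
  have hev : ∀ z0 ∈ Ω, (fun z => v (pr z)) =ᶠ[𝓝 z0] V z0 := by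
    intro z0 hz0
    filter_upwards [Metric.ball_mem_nhds z0 (hr z0 hz0)] with z hz
    exact hvV z0 hz0 z hz
  refine ⟨v, ?_, ?_, ?_⟩
  · obtain ⟨t, ht, htc, hcov⟩ := TopologicalSpace.countable_cover_nhdsWithin
      (f := fun z0 => Metric.ball z0 (r z0)) (s := Ω)
      (fun z0 hz0 => mem_nhdsWithin_of_mem_nhds (Metric.ball_mem_nhds z0 (hr z0 hz0)))
    rw [ae_iff]
    obtain ⟨B, hB⟩ : ∃ B : ℂ → Set ℂ, B = fun z0 => toMeasurable volume
      {z | ¬ (z ∈ Metric.ball z0 (r z0) → u (pr z) = V z0 z)} ∩ Metric.ball z0 (r z0) := ⟨_, rfl⟩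
    have hBn : ∀ z0 ∈ t, μ (pr '' B z0) = 0 := by
      intro z0 hz0
      apply (hcvm M P Ω φ pr q μ hUT hAr).2.2.1
      · rw [hB]
        exact (measurableSet_toMeasurable _ _).inter measurableSet_ball
      · rw [hB]
        exact inter_subset_right.trans (hball z0 (ht hz0))
      · rw [hB]
        refine measure_mono_null inter_subset_left ?_
        rw [measure_toMeasurable]
        exact hnull z0 (ht hz0)
    refine measure_mono_null ?_ ((measure_biUnion_null_iff htc).2 hBn)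
    intro x hx
    obtain ⟨z, hz, rfl⟩ : ∃ z ∈ Ω, pr z = x := ⟨s x, hs x, hs' x⟩
    have hzc := hcov hz
    rw [mem_iUnion₂] at hzc ⊢
    obtain ⟨z0, hz0, hzb⟩ := hzc
    refine ⟨z0, hz0, z, ?_, rfl⟩
    rw [hB]
    refine ⟨subset_toMeasurable _ _ ?_, hzb⟩
    intro h6
    apply hx
    rw [hvV z0 (ht hz0) z hzb]
    exact h6 hzb
  · intro z0 hz0
    have h1 := (hsm z0 hz0).contDiffAt (Metric.ball_mem_nhds z0 (hr z0 hz0))
    exact (h1.congr_of_eventuallyEq (hev z0 hz0)).contDiffWithinAt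
  · intro z hz
    have h1 := heq z hz z (Metric.mem_ball_self (hr z hz))
    rw [lap_congr (hev z hz), hvV z hz z (Metric.mem_ball_self (hr z hz))]
    have h2 : Real.exp (-2 * φ z) * Real.exp (2 * φ z) = 1 := by
      rw [← Real.exp_add]
      simp
    have h3 : lap (V z) z = -(lam * Real.exp (2 * φ z) * V z z) := by linarith
    rw [h3]
    linear_combination (lam * V z z) * h2

end Pool.Agent.Y65.EL
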